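import Mathlib
import Pool.Agent.V11215.TorusBad

/-!
MP_601622_gt, Q1 (negated form): a metric fractal which is not equi-Hölder equivalent to a fractal in
`ℓ₂`; its underlying compact space has no equi-Hölder embedding into any inner product space.
-/

set_option autoImplicit false

namespace Pool.Agent.Results.MP_601622_gt.NotEquiHolder

open Set Filter Topology
open Pool.Agent.V11215.TorusBad
open scoped NNReal

universe u

/-! ### Definitions -/

/-- A self-map is contracting if it is Lipschitz with a constant less than `1`. -/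
def Contracting {X : Type u} [MetricSpace X] (f : X → X) : Prop :=
  ∃ k : ℝ≥0, k < 1 ∧ LipschitzWith k f

/-- A metric fractal: a nonempty compact metric space `K` with a finite family of contracting
self-maps whose images cover `K`. -/
structure IsMetricFractal (K : Type) [MetricSpace K] (F : Set (K → K)) : Prop where
  nonempty : Nonempty K
  compact : CompactSpace K
  finite : F.Finite
  contracting : ∀ f ∈ F, Contracting f
  cover : ⋃ f ∈ F, range f = univ

/-- `(K, F)` is a fractal in the metric space `X`: `K ⊆ X` is the nonempty compact attractor of a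
finite family `G` of contracting self-maps of `X`, and `F` is the family of the restrictions to `K`
of the members of `G`. -/
def IsFractalIn (X : Type) [MetricSpace X] (K : Set X) (F : Set (K → K)) : Prop :=
  K.Nonempty ∧ IsCompact K ∧ ∃ G : Set (X → X), G.Finite ∧ (∀ g ∈ G, Contracting g) ∧
    K = ⋃ g ∈ G, g '' K ∧ F = {f | ∃ g ∈ G, ∀ x : K, (f x : X) = g x}

/-- The two-sided Hölder condition with the same exponent on both sides. -/
def EquiHolder {X : Type} {Y : Type u} [MetricSpace X] [MetricSpace Y] (h : X → Y) : Prop :=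
  ∃ c C α : ℝ, 0 < c ∧ 0 < C ∧ 0 < α ∧
    ∀ x y, c * dist x y ^ α ≤ dist (h x) (h y) ∧ dist (h x) (h y) ≤ C * dist x y ^ α

/-- Equi-Hölder equivalence of two spaces with families of self-maps. -/
def EquiHolderEquivalent {X Y : Type} [MetricSpace X] [MetricSpace Y] (F : Set (X → X))
    (G : Set (Y → Y)) : Prop :=
  ∃ h : X ≃ₜ Y, EquiHolder h ∧ G = (fun f => h ∘ f ∘ h.symm) '' F

/-- The Hilbert space `ℓ₂`. -/
abbrev Ell2 : Type := lp (fun _ : ℕ => ℝ) 2

/-! ### Choice of the metrics on the levels -/

theorem choose_metric (i : ℕ) : ∃ d : Fin (i + 1) → Fin (i + 1) → ℝ, IsMet d ∧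
    ∀ q ≤ i, (∃ d' : Fin (i + 1) → Fin (i + 1) → ℝ, IsMet d' ∧ Bad.{0} q d') → Bad.{0} q d := by
  classical
  by_cases h : ∃ q, q ≤ i ∧ ∃ d' : Fin (i + 1) → Fin (i + 1) → ℝ, IsMet d' ∧ Bad.{0} q d'
  · obtain ⟨q, hq, hd⟩ := h
    obtain ⟨d, hd1, hd2⟩ := Nat.findGreatest_spec (P := fun q =>
      ∃ d' : Fin (i + 1) → Fin (i + 1) → ℝ, IsMet d' ∧ Bad.{0} q d') hq hd
    refine ⟨d, hd1, fun q' hq' hd' => ?_⟩
    exact hd2.mono (Nat.le_findGreatest hq' hd')
  · push Not at h
    refine ⟨fun a b => if a = b then 0 else 1, ?_, ?_⟩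
    · constructor
      · intro x
        simp
      · intro x y
        simp [eq_comm]
      · intro x y z
        by_cases h1 : x = y
        · subst h1
          simp
        · by_cases h2 : x = z
          · rw [if_pos h2, if_neg h1]
            split_ifs <;> norm_num
          · rw [if_neg h2, if_neg h1]
            split_ifs <;> norm_num
      · intro x y hxy
        rw [if_neg hxy]
    · rintro q hq ⟨d', hd1, hd2⟩
      exact absurd hd2 (h q hq d' hd1)

/-- The metric on the `i`-th level. -/
noncomputable def dd (i : ℕ) : Fin (i + 1) → Fin (i + 1) → ℝ := (choose_metric i).choose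

theorem dd_met (i : ℕ) : IsMet (dd i) := (choose_metric i).choose_spec.1

theorem dd_bad (i q : ℕ) (hq : q ≤ i)
    (h : ∃ d' : Fin (i + 1) → Fin (i + 1) → ℝ, IsMet d' ∧ Bad.{0} q d') : Bad.{0} q (dd i) :=
  (choose_metric i).choose_spec.2 q hq h

theorem exists_level (q : ℕ) : ∃ i, Bad.{0} q (dd i) := by
  obtain ⟨Y, _, d, hd1, hcard, hd2⟩ := exists_bad.{0} q
  obtain ⟨i, hi⟩ : ∃ i, Fintype.card Y = i + 1 := ⟨Fintype.card Y - 1, by omega⟩
  let e : Y ≃ Fin (i + 1) := Fintype.equivFinOfCardEq hi
  refine ⟨i, dd_bad i q (by omega) ⟨fun a b => d (e.symm a) (e.symm b), ?_, ?_⟩⟩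
  · constructor
    · intro x
      exact hd1.self _
    · intro x y
      exact hd1.symm _ _
    · intro x y z
      exact hd1.tri _ _ _
    · intro x y hxy
      exact hd1.one_le _ _ (fun h => hxy (e.symm.injective h))
  · intro H _ _ h c C α h1 h2 h3 h4 hcon
    refine hd2 H (fun y => h (e y)) c C α h1 h2 h3 h4 ?_
    intro x y
    have := hcon (e x) (e y)
    simpa using this

/-- The metric of the `i`-th level as a function on pairs of natural numbers. -/
noncomputable def DD (i a b : ℕ) : ℝ :=
  if h : a < i + 1 ∧ b < i + 1 then dd i ⟨a, h.1⟩ ⟨b, h.2⟩ else 0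

theorem DD_eq {i a b : ℕ} (ha : a ≤ i) (hb : b ≤ i) :
    DD i a b = dd i ⟨a, by omega⟩ ⟨b, by omega⟩ := by
  unfold DD
  rw [dif_pos ⟨by omega, by omega⟩]

theorem DD_self {i a : ℕ} (ha : a ≤ i) : DD i a a = 0 := by
  rw [DD_eq ha ha]
  exact (dd_met i).self _

theorem DD_symm {i a b : ℕ} (ha : a ≤ i) (hb : b ≤ i) : DD i a b = DD i b a := by
  rw [DD_eq ha hb, DD_eq hb ha]
  exact (dd_met i).symm _ _

theorem DD_tri {i a b c : ℕ} (ha : a ≤ i) (hb : b ≤ i) (hc : c ≤ i) :
    DD i a c ≤ DD i a b + DD i b c := by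
  rw [DD_eq ha hb, DD_eq hb hc, DD_eq ha hc]
  exact (dd_met i).tri _ _ _

theorem DD_one_le {i a b : ℕ} (ha : a ≤ i) (hb : b ≤ i) (hab : a ≠ b) : 1 ≤ DD i a b := by
  rw [DD_eq ha hb]
  apply (dd_met i).one_le
  intro h
  exact hab (congrArg Fin.val h)

theorem dd_nonneg (i : ℕ) (a b : Fin (i + 1)) : 0 ≤ dd i a b := by
  by_cases h : a = b
  · subst h
    exact ((dd_met i).self a).ge
  · exact zero_le_one.trans ((dd_met i).one_le a b h)

theorem DD_nonneg {i a b : ℕ} (ha : a ≤ i) (hb : b ≤ i) : 0 ≤ DD i a b := by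
  rw [DD_eq ha hb]
  exact dd_nonneg i _ _

/-- A bound for the diameter of the `i`-th level. -/
noncomputable def Di (i : ℕ) : ℝ := 1 + ∑ a, ∑ b, dd i a b

theorem one_le_Di (i : ℕ) : 1 ≤ Di i := by
  unfold Di
  have : 0 ≤ ∑ a, ∑ b, dd i a b :=
    Finset.sum_nonneg fun a _ => Finset.sum_nonneg fun b _ => dd_nonneg i a b
  linarith

theorem DD_le_Di {i a b : ℕ} (ha : a ≤ i) (hb : b ≤ i) : DD i a b ≤ Di i := by
  rw [DD_eq ha hb]
  unfold Di
  have h1 := Finset.single_le_sum (f := fun b => dd i ⟨a, by omega⟩ b)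
    (fun b _ => dd_nonneg i _ b) (Finset.mem_univ (⟨b, by omega⟩ : Fin (i + 1)))
  have h2 := Finset.single_le_sum (f := fun a => ∑ b, dd i a b)
    (fun a _ => Finset.sum_nonneg fun b _ => dd_nonneg i a b)
    (Finset.mem_univ (⟨a, by omega⟩ : Fin (i + 1)))
  linarith

/-- The scales. -/
noncomputable def sc : ℕ → ℝ
  | 0 => 1
  | i + 1 => sc i / (2 * Di (i + 1))

theorem sc_pos (i : ℕ) : 0 < sc i := by
  induction i with
  | zero => exact one_pos
  | succ i ih =>
    have := one_le_Di (i + 1)
    unfold sc
    positivity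

/-- The distance of the `i`-th level from the rest. -/
noncomputable def r (i : ℕ) : ℝ := sc i * Di i

theorem r_pos (i : ℕ) : 0 < r i := by
  have := one_le_Di i
  have := sc_pos i
  unfold r
  positivity

theorem r_succ (i : ℕ) : r (i + 1) = sc i / 2 := by
  have := one_le_Di (i + 1)
  unfold r
  rw [sc]
  field_simp

theorem r_half (i : ℕ) : r (i + 1) ≤ r i / 2 := by
  rw [r_succ]
  unfold r
  have := one_le_Di i
  have := sc_pos i
  have : sc i ≤ sc i * Di i := le_mul_of_one_le_right (by positivity) (by assumption)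
  linarith

theorem r_anti : Antitone r := by
  apply antitone_nat_of_succ_le
  intro i
  have := r_half i
  have := r_pos i
  linarith

theorem r_le (i : ℕ) : r i ≤ r 0 * (1 / 2) ^ i := by
  induction i with
  | zero => simp
  | succ i ih =>
    have := r_half i
    rw [pow_succ]
    linarith

/-! ### The space -/

/-- The points of the levels: pairs `(i, a)` with `a ≤ i`. -/
abbrev Lev : Type := {p : ℕ × ℕ // p.2 ≤ p.1}

/-- The space, with its limit point `none`. -/
structure Kp : Type where
  /-- the underlying point -/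
  val : Option Lev

/-- The distance. -/
noncomputable def dK : Option Lev → Option Lev → ℝ
  | none, none => 0
  | none, some p => r p.1.1
  | some p, none => r p.1.1
  | some p, some q => if p.1.1 = q.1.1 then sc p.1.1 * DD p.1.1 p.1.2 q.1.2
      else r (min p.1.1 q.1.1)

theorem lev_le (i a b : ℕ) (ha : a ≤ i) (hb : b ≤ i) :
    sc i * DD i a b ≤ r i := by
  unfold r
  have := sc_pos i
  have := DD_le_Di ha hb
  gcongr

theorem lev_nonneg (i a b : ℕ) (ha : a ≤ i) (hb : b ≤ i) : 0 ≤ sc i * DD i a b :=
  mul_nonneg (sc_pos i).le (DD_nonneg ha hb)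

theorem dK_self (x : Option Lev) : dK x x = 0 := by
  rcases x with _ | ⟨⟨i, a⟩, ha⟩
  · rfl
  · simp only [dK, if_true]
    rw [DD_self ha, mul_zero]

theorem dK_comm (x y : Option Lev) : dK x y = dK y x := by
  rcases x with _ | ⟨⟨i, a⟩, ha⟩ <;> rcases y with _ | ⟨⟨j, b⟩, hb⟩
  · rfl
  · rfl
  · rfl
  · simp only [dK]
    by_cases h : i = j
    · subst h
      simp only [if_true]
      rw [DD_symm ha hb]
    · rw [if_neg h, if_neg (Ne.symm h), min_comm]

theorem dK_tri (x y z : Option Lev) : dK x z ≤ dK x y + dK y z := by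
  rcases x with _ | ⟨⟨i, a⟩, ha⟩ <;> rcases y with _ | ⟨⟨j, b⟩, hb⟩ <;>
    rcases z with _ | ⟨⟨k, c⟩, hc⟩ <;> simp only [dK]
  · simp
  · simp
  · have := r_pos j
    linarith
  · by_cases h : j = k
    · subst h
      simp only [if_true]
      have := lev_nonneg j b c hb hc
      linarith
    · rw [if_neg h]
      rcases lt_or_gt_of_ne h with h | h
      · rw [min_eq_left h.le]
        have := r_anti h.le
        have := r_pos j
        linarith
      · rw [min_eq_right h.le]
        have := r_pos j
        linarith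
  · simp
  · by_cases h : i = k
    · subst h
      simp only [if_true]
      have := lev_le i a c ha hc
      have := r_pos i
      linarith
    · rw [if_neg h]
      rcases lt_or_gt_of_ne h with h | h
      · rw [min_eq_left h.le]
        have := r_pos k
        linarith
      · rw [min_eq_right h.le]
        have := r_pos i
        linarith
  · by_cases h : i = j
    · subst h
      simp only [if_true]
      have := lev_nonneg i a b ha hb
      linarith
    · rw [if_neg h]
      rcases lt_or_gt_of_ne h with h | h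
      · rw [min_eq_left h.le]
        have := r_pos j
        linarith
      · rw [min_eq_right h.le]
        have := r_anti h.le
        have := r_pos j
        linarith
  · by_cases h1 : i = k
    · subst h1
      simp only [if_true]
      by_cases h2 : i = j
      · subst h2
        simp only [if_true]
        rw [← mul_add]
        exact mul_le_mul_of_nonneg_left (DD_tri ha hb hc) (sc_pos i).le
      · rw [if_neg h2, if_neg (Ne.symm h2)]
        have h3 := lev_le i a c ha hc
        have h4 : r i ≤ r (min i j) := r_anti (min_le_left _ _)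
        have h5 := r_pos (min j i)
        linarith
    · rw [if_neg h1]
      by_cases h2 : i = j
      · subst h2
        simp only [if_true]
        rw [if_neg h1]
        have := lev_nonneg i a b ha hb
        linarith
      · rw [if_neg h2]
        by_cases h3 : j = k
        · subst h3
          simp only [if_true]
          have := lev_nonneg j b c hb hc
          linarith
        · rw [if_neg h3]
          have h5 := r_pos (min j k)
          have h6 := r_pos (min i j)
          rcases le_total j (min i k) with h | h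
          · have h7 : min i j ≤ min i k := (min_le_right _ _).trans h
            have := r_anti h7
            linarith
          · rcases le_total i k with h8 | h8
            · rw [min_eq_left h8] at h ⊢
              rw [min_eq_left h]
              linarith
            · rw [min_eq_right h8] at h ⊢
              rw [min_eq_right h] at h5 ⊢
              linarith

theorem dK_eq (x y : Option Lev) (h : dK x y = 0) : x = y := by
  rcases x with _ | ⟨⟨i, a⟩, ha⟩ <;> rcases y with _ | ⟨⟨j, b⟩, hb⟩ <;> simp only [dK] at h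
  · rfl
  · exact absurd h (r_pos j).ne'
  · exact absurd h (r_pos i).ne'
  · by_cases hij : i = j
    · subst hij
      simp only [if_true] at h
      rcases mul_eq_zero.1 h with h | h
      · exact absurd h (sc_pos i).ne'
      · by_cases hab : a = b
        · subst hab
          rfl
        · have := DD_one_le ha hb hab
          rw [h] at this
          exact absurd this (by norm_num)
    · rw [if_neg hij] at h
      exact absurd h (r_pos _).ne'

/-- The metric on the space. -/
noncomputable instance : MetricSpace Kp where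
  dist x y := dK x.val y.val
  dist_self x := dK_self x.val
  dist_comm x y := dK_comm x.val y.val
  dist_triangle x y z := dK_tri x.val y.val z.val
  eq_of_dist_eq_zero := by
    rintro ⟨x⟩ ⟨y⟩ h
    rw [dK_eq x y h]

theorem dist_def (x y : Kp) : dist x y = dK x.val y.val := rfl

/-! ### Compactness -/

theorem finite_far {ε : ℝ} (hε : 0 < ε) : {x : Kp | ε ≤ dK none x.val}.Finite := by
  have hr0 := r_pos 0
  obtain ⟨n, hn⟩ := exists_pow_lt_of_lt_one (show 0 < ε / r 0 by positivity)
    (show (1 / 2 : ℝ) < 1 by norm_num)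
  have hfin : {x : Kp | x.val = none ∨ ∃ p : Lev, x.val = some p ∧ p.1.1 < n}.Finite := by
    let g : Option (Fin n × Fin n) → Kp := fun o =>
      match o with
      | none => ⟨none⟩
      | some p => if h : p.2.1 ≤ p.1.1 then ⟨some ⟨(p.1.1, p.2.1), h⟩⟩ else ⟨none⟩
    refine (finite_range g).subset ?_
    rintro ⟨x⟩ (hx | ⟨⟨⟨i, a⟩, ha⟩, hx, hi⟩)
    · refine ⟨none, ?_⟩
      simp only at hx
      rw [hx]
    · simp only at hx hi ha
      refine ⟨some (⟨i, hi⟩, ⟨a, by omega⟩), ?_⟩
      simp only [g, dif_pos ha, hx]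
  refine hfin.subset ?_
  rintro ⟨x⟩ hx
  rcases x with _ | p
  · left
    rfl
  · right
    refine ⟨p, rfl, ?_⟩
    by_contra hlt
    push Not at hlt
    have h1 : ε ≤ r p.1.1 := hx
    have h2 := r_anti hlt
    have h3 := r_le n
    rw [lt_div_iff₀ hr0] at hn
    linarith

theorem compactK : CompactSpace Kp := by
  constructor
  rw [isCompact_iff_ultrafilter_le_nhds]
  intro f _
  by_cases h : (f : Filter Kp) ≤ 𝓝 (⟨none⟩ : Kp)
  · exact ⟨_, mem_univ _, h⟩
  · rw [Metric.nhds_basis_ball.ge_iff] at h
    push Not at h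
    obtain ⟨ε, hε, hball⟩ := h
    have h1 : (Metric.ball (⟨none⟩ : Kp) ε)ᶜ ∈ f := by
      rcases f.mem_or_compl_mem (Metric.ball (⟨none⟩ : Kp) ε) with h2 | h2
      · exact absurd h2 hball
      · exact h2
    have h2 : ((Metric.ball (⟨none⟩ : Kp) ε)ᶜ).Finite := by
      refine (finite_far hε).subset ?_
      intro x hx
      simp only [mem_compl_iff, Metric.mem_ball, not_lt] at hx
      rw [dist_comm] at hx
      exact hx
    obtain ⟨x, _, hx⟩ := Ultrafilter.eq_pure_of_finite_mem h2 h1
    refine ⟨x, mem_univ _, ?_⟩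
    rw [hx]
    exact pure_le_nhds x

/-! ### The maps -/

/-- `(i, a) ↦ (i+1, a)`. -/
def f0 (x : Kp) : Kp := ⟨x.val.map fun p => ⟨(p.1.1 + 1, p.1.2), by have := p.2; simp only; omega⟩⟩

/-- `(i, a) ↦ (i+1, a+1)`. -/
def f1 (x : Kp) : Kp :=
  ⟨x.val.map fun p => ⟨(p.1.1 + 1, p.1.2 + 1), by have := p.2; simp only; omega⟩⟩

/-- The constant map to the point of level `0`. -/
def fc (_ : Kp) : Kp := ⟨some ⟨(0, 0), le_rfl⟩⟩

theorem level_contract (i a b a' b' : ℕ) (ha : a ≤ i) (hb : b ≤ i) (ha' : a' ≤ i + 1)
    (hb' : b' ≤ i + 1) (h : a = b → a' = b') :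
    sc (i + 1) * DD (i + 1) a' b' ≤ 1 / 2 * (sc i * DD i a b) := by
  by_cases hab : a = b
  · have h' := h hab
    subst hab h'
    rw [DD_self ha', DD_self ha]
    simp
  · have h1 := lev_le (i + 1) a' b' ha' hb'
    rw [r_succ] at h1
    have h2 := DD_one_le ha hb hab
    have h3 := sc_pos i
    nlinarith

theorem contract_aux (g : ℕ → ℕ) (hg : ∀ a, g a ≤ a + 1) (x y : Option Lev) :
    dK (x.map fun p => ⟨(p.1.1 + 1, g p.1.2), by have := p.2; have := hg p.1.2; simp only; omega⟩)
      (y.map fun p => ⟨(p.1.1 + 1, g p.1.2), by have := p.2; have := hg p.1.2; simp only; omega⟩) ≤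
      1 / 2 * dK x y := by
  rcases x with _ | ⟨⟨i, a⟩, ha⟩ <;> rcases y with _ | ⟨⟨j, b⟩, hb⟩ <;>
    simp only [dK, Option.map_none, Option.map_some]
  · simp
  · have := r_half j
    linarith
  · have := r_half i
    linarith
  · have ha1 := hg a
    have hb1 := hg b
    simp only at ha hb
    by_cases h : i = j
    · subst h
      simp only [if_true]
      exact level_contract i a b _ _ ha hb (by omega) (by omega) (fun h => by rw [h])
    · rw [if_neg h, if_neg (by omega), min_add_add_right]
      have := r_half (min i j)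
      linarith

theorem f0_contract : Contracting f0 := by
  refine ⟨1 / 2, by norm_num, LipschitzWith.of_dist_le_mul fun x y => ?_⟩
  have := contract_aux id (fun a => by simp) x.val y.val
  rw [dist_def, dist_def]
  push_cast
  exact this

theorem f1_contract : Contracting f1 := by
  refine ⟨1 / 2, by norm_num, LipschitzWith.of_dist_le_mul fun x y => ?_⟩
  have := contract_aux (· + 1) (fun a => le_rfl) x.val y.val
  rw [dist_def, dist_def]
  push_cast
  exact this

theorem fc_contract : Contracting fc := by
  refine ⟨1 / 2, by norm_num, LipschitzWith.of_dist_le_mul fun x y => ?_⟩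
  have : dist (fc x) (fc y) = 0 := dist_self _
  rw [this]
  positivity

theorem fractal : IsMetricFractal Kp {f0, f1, fc} := by
  refine ⟨⟨⟨none⟩⟩, compactK, Set.toFinite _, ?_, ?_⟩
  · rintro f (rfl | rfl | rfl)
    · exact f0_contract
    · exact f1_contract
    · exact fc_contract
  · rw [eq_univ_iff_forall]
    rintro ⟨x⟩
    simp only [mem_iUnion, mem_insert_iff, mem_singleton_iff, exists_prop]
    rcases x with _ | ⟨⟨i, a⟩, ha⟩
    · exact ⟨f0, Or.inl rfl, ⟨none⟩, rfl⟩
    · simp only at ha
      rcases i with _ | i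
      · obtain rfl : a = 0 := by omega
        exact ⟨fc, Or.inr (Or.inr rfl), ⟨none⟩, rfl⟩
      · by_cases hai : a ≤ i
        · exact ⟨f0, Or.inl rfl, ⟨some ⟨(i, a), hai⟩⟩, rfl⟩
        · obtain rfl : a = i + 1 := by omega
          exact ⟨f1, Or.inr (Or.inl rfl), ⟨some ⟨(i, i), le_rfl⟩⟩, rfl⟩

/-! ### No equi-Hölder embedding -/

theorem no_embedding (H : Type) [NormedAddCommGroup H] [InnerProductSpace ℝ H] (h : Kp → H) :
    ¬ EquiHolder h := by
  rintro ⟨c, C, α, hc, hC, hα, hh⟩
  obtain ⟨q, hq⟩ := exists_nat_gt (max (1 / c) (max C (1 / α)))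
  have hq1 : 1 / c < q := (le_max_left _ _).trans_lt hq
  have hq2 : C < q := ((le_max_left _ _).trans (le_max_right _ _)).trans_lt hq
  have hq3 : 1 / α < q := ((le_max_right _ _).trans (le_max_right _ _)).trans_lt hq
  obtain ⟨i, hi⟩ := exists_level q
  have hs := sc_pos i
  have hsα : 0 < sc i ^ α := Real.rpow_pos_of_pos hs α
  refine hi H (fun a => (sc i ^ α)⁻¹ • h ⟨some ⟨(i, a.1), by have := a.2; simp only; omega⟩⟩)
    c C α ?_ hC.le (by linarith) ?_ ?_
  · rw [one_div_le (by positivity) hc]
    linarith
  · rw [one_div_le (by positivity) hα]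
    linarith
  · intro a b
    have ha : a.1 ≤ i := by have := a.2; omega
    have hb : b.1 ≤ i := by have := b.2; omega
    have h1 := hh ⟨some ⟨(i, a.1), ha⟩⟩ ⟨some ⟨(i, b.1), hb⟩⟩
    rw [dist_def] at h1
    simp only [dK, if_true] at h1
    rw [DD_eq ha hb, Real.mul_rpow hs.le (dd_nonneg i _ _), dist_eq_norm] at h1
    rw [← smul_sub, norm_smul, Real.norm_of_nonneg (by positivity)]
    constructor
    · rw [le_inv_mul_iff₀ hsα]
      calc sc i ^ α * (c * dd i a b ^ α) = c * (sc i ^ α * dd i a b ^ α) := by ring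
        _ ≤ _ := h1.1
    · rw [inv_mul_le_iff₀ hsα]
      calc _ ≤ C * (sc i ^ α * dd i a b ^ α) := h1.2
        _ = sc i ^ α * (C * dd i a b ^ α) := by ring

/-- There is a metric fractal `(K, F)` such that `K` has no equi-Hölder embedding into any real
inner product space (of a given universe); in particular `(K, F)` is not equi-Hölder equivalent to a
fractal in `ℓ₂`. -/
theorem result : ∃ (K : Type) (_ : MetricSpace K) (F : Set (K → K)), IsMetricFractal K F ∧
    (∀ (H : Type) [NormedAddCommGroup H] [InnerProductSpace ℝ H] (h : K → H), ¬ EquiHolder h) ∧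
    ¬ ∃ (K' : Set Ell2) (F' : Set (K' → K')), IsFractalIn Ell2 K' F' ∧
      EquiHolderEquivalent F F' := by
  refine ⟨Kp, inferInstance, {f0, f1, fc}, fractal, fun H _ _ h => no_embedding H h, ?_⟩
  rintro ⟨K', F', _, h, hh, _⟩
  refine no_embedding Ell2 (fun x => (h x : Ell2)) ?_
  obtain ⟨c, C, α, h1, h2, h3, h4⟩ := hh
  exact ⟨c, C, α, h1, h2, h3, h4⟩

end Pool.Agent.Results.MP_601622_gt.NotEquiHolder
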